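import Pool.Agent.H966R3.BG.Mono

set_option autoImplicit false

open Filter Topology

namespace Pool.Agent.Results.MP_578bf4_al.LimitBounds

open Pool.Agent.H966R3.BG

theorem result : ∃ (ω : ℕ → ℝ) (L : ℝ),
    (∀ n : ℕ, 2 ≤ n →
      Tendsto (fun k : ℕ => (beta n k : ℝ) ^ (1 / (k : ℝ))) atTop (𝓝 (ω n)) ∧
      4 * Real.cos (Real.pi / (n + 1)) ^ 2 ≤ ω n ∧ ω n ≤ 152 / 25) ∧
    Tendsto ω atTop (𝓝 L) ∧ 4 ≤ L ∧ L ≤ 152 / 25 := by
  classical
  choose! w hw using growth2
  have hmono : ∀ n, 2 ≤ n → w n ≤ w (n + 1) := by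
    intro n hn
    refine le_of_tendsto_of_tendsto' (hw n hn).1 (hw (n + 1) (by omega)).1 fun k => ?_
    apply Real.rpow_le_rpow (Nat.cast_nonneg _) _ (by positivity)
    exact_mod_cast beta_mono n k hn
  have hm : Monotone (fun n => w (n + 2)) :=
    monotone_nat_of_le_succ fun n => hmono (n + 2) (by omega)
  have hb : BddAbove (Set.range fun n => w (n + 2)) :=
    ⟨152 / 25, by rintro _ ⟨n, rfl⟩; exact (hw (n + 2) (by omega)).2.2⟩
  have hL : Tendsto w atTop (𝓝 (⨆ n, w (n + 2))) :=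
    (tendsto_add_atTop_iff_nat 2).1 (tendsto_atTop_ciSup hm hb)
  refine ⟨w, _, fun n hn => hw n hn, hL, ?_, ?_⟩
  · have h1 : Tendsto (fun n : ℕ => Real.pi / ((n : ℝ) + 1)) atTop (𝓝 0) := by
      have := (tendsto_const_div_atTop_nhds_zero_nat Real.pi).comp (tendsto_add_atTop_nat 1)
      refine this.congr fun n => ?_
      simp
    have h2 : Tendsto (fun n : ℕ => 4 * Real.cos (Real.pi / ((n : ℝ) + 1)) ^ 2) atTop
        (𝓝 (4 * Real.cos 0 ^ 2)) :=
      (((Real.continuous_cos.tendsto 0).comp h1).pow 2).const_mul 4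
    rw [Real.cos_zero, one_pow, mul_one] at h2
    refine le_of_tendsto_of_tendsto h2 hL ?_
    filter_upwards [eventually_ge_atTop 2] with n hn
    exact (hw n hn).2.1
  · refine le_of_tendsto hL ?_
    filter_upwards [eventually_ge_atTop 2] with n hn
    exact (hw n hn).2.2

end Pool.Agent.Results.MP_578bf4_al.LimitBounds
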